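import Pool.Agent.Helper4.PQ0.St
import Pool.Agent.Helper16.OS.M_TWA

/-!
# Project PQS, module TWD: counting in the case `a = 2`
-/

set_option autoImplicit false

namespace Pool.Agent.Helper25.PQ0

open Matrix ComplexConjugate Pool.Agent.Helper94.YF Pool.Agent.Helper94.YG
open Pool.Agent.Helper89.OS hiding PD Cx Blk B0 Orb StXA StXB StXC StXE StCGR StISO StBLK StAMG StHEC StSTL StMZZ StDRE StTSU
open Pool.Agent.Helper89.OC hiding Ks gX OB Lk StORB StTS2 StLKD StTAN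
open Pool.Agent.Helper4.PQ0
open Pool.Agent.Helper16.OS (TWA_sq TWA_T)

/-- powers of a root of unity of order dividing `P` -/
theorem TWD_pow {P : ℕ} (θ : ℂ) (h : θ ^ P = 1) (a b : ZMod P) :
    (θ ^ a.val) ^ b.val = θ ^ (a * b).val := by
  rw [← pow_mul, ZMod.val_mul]
  exact pow_eq_pow_mod _ h

open Classical in
/-- the mass of a twist -/
noncomputable def Ms {I : Type} [Fintype I] [DecidableEq I] {p : ℕ} (X : PD I p 2) (ζ : ℂ) : ℤ :=
  ∑ i, if X.t i = ζ then X.y i ^ 2 else 0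

theorem Ms_nonneg {I : Type} [Fintype I] [DecidableEq I] {p : ℕ} (X : PD I p 2) (ζ : ℂ) :
    0 ≤ Ms X ζ := by
  classical
  unfold Ms
  refine Finset.sum_nonneg fun i _ => ?_
  split_ifs
  · exact sq_nonneg _
  · exact le_rfl

theorem Ms_ge {I : Type} [Fintype I] [DecidableEq I] {p : ℕ} (X : PD I p 2) (k : I) :
    X.y k ^ 2 ≤ Ms X (X.t k) := by
  classical
  unfold Ms
  have h := Finset.single_le_sum (s := Finset.univ)
    (f := fun i => if X.t i = X.t k then X.y i ^ 2 else 0) (fun i _ => by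
      show (0 : ℤ) ≤ if X.t i = X.t k then X.y i ^ 2 else 0
      split_ifs
      · exact sq_nonneg _
      · exact le_rfl) (Finset.mem_univ k)
  simpa using h

theorem Ms_ge2 {I : Type} [Fintype I] [DecidableEq I] {p : ℕ} (X : PD I p 2) (j k : I)
    (hjk : j ≠ k) (ht : X.t k = X.t j) : X.y j ^ 2 + X.y k ^ 2 ≤ Ms X (X.t j) := by
  classical
  unfold Ms
  have h : ∑ i ∈ ({j, k} : Finset I), (if X.t i = X.t j then X.y i ^ 2 else 0) ≤
      ∑ i, if X.t i = X.t j then X.y i ^ 2 else 0 := by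
    refine Finset.sum_le_sum_of_subset_of_nonneg (Finset.subset_univ _) ?_
    intro i _ _
    split_ifs
    · exact sq_nonneg _
    · exact le_rfl
  rw [Finset.sum_pair hjk, if_pos rfl, if_pos ht] at h
  exact h

/-- invariance under the torus -/
theorem Ms_inv {I : Type} [Fintype I] [DecidableEq I] {p : ℕ} (X : PD I p 2) (ζ : ℂ)
    (hζ : ζ ^ p ^ 2 = 1) (c : (ZMod (p ^ 2))ˣ) :
    Ms X (ζ ^ ((c : ZMod (p ^ 2)) ^ 2).val) = Ms X ζ := by
  classical
  have hbij : Function.Bijective (X.pi c) := by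
    refine ⟨?_, ?_⟩
    · intro i j h
      have h1 := congrArg (X.pi c⁻¹) h
      rw [← X.pi_mul, ← X.pi_mul, inv_mul_cancel, X.pi_one, X.pi_one] at h1
      exact h1
    · intro i
      refine ⟨X.pi c⁻¹ i, ?_⟩
      rw [← X.pi_mul, mul_inv_cancel, X.pi_one]
  unfold Ms
  rw [← Function.Bijective.sum_comp hbij]
  refine Finset.sum_congr rfl fun i _ => ?_
  rw [X.pi_t, X.pi_y]
  have hinv : ∀ θ : ℂ, θ ^ p ^ 2 = 1 →
      (θ ^ ((c : ZMod (p ^ 2)) ^ 2).val) ^ (((c⁻¹ : (ZMod (p ^ 2))ˣ) : ZMod (p ^ 2)) ^ 2).val = θ := by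
    intro θ hθ
    rw [TWD_pow θ hθ]
    have e : (c : ZMod (p ^ 2)) ^ 2 * ((c⁻¹ : (ZMod (p ^ 2))ˣ) : ZMod (p ^ 2)) ^ 2 = 1 := by
      rw [← mul_pow, Units.mul_inv, one_pow]
    rw [e]
    have hp1 : 1 < p ^ 2 := Nat.one_lt_pow two_ne_zero X.prime.one_lt
    have : Fact (1 < p ^ 2) := ⟨hp1⟩
    rw [ZMod.val_one, pow_one]
  have hiff : X.t i ^ ((c : ZMod (p ^ 2)) ^ 2).val = ζ ^ ((c : ZMod (p ^ 2)) ^ 2).val ↔
      X.t i = ζ := by
    constructor
    · intro h
      rw [← hinv (X.t i) (X.t_pow i), h, hinv ζ hζ]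
    · intro h
      rw [h]
  by_cases h : X.t i = ζ
  · rw [if_pos (hiff.2 h), if_pos h]
  · rw [if_neg (fun h' => h (hiff.1 h')), if_neg h]

open Classical in
/-- the mass relation (2) -/
theorem Ms_rel {I : Type} [Fintype I] [DecidableEq I] {p : ℕ} (X : PD I p 2) (ξ : ℂ)
    (hξ : ξ ^ p ^ 2 = 1) :
    (p : ℤ) * Ms X ξ - (∑ i, if X.t i ^ p = ξ ^ p then X.y i ^ 2 else 0) =
      X.y X.o * ((if ξ = 1 then (p : ℤ) ^ 2 else 0) - (if ξ ^ p = 1 then (p : ℤ) else 0)) := by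
  have hp := X.prime
  have hNZ : NeZero (p ^ 2) := ⟨pow_ne_zero _ hp.ne_zero⟩
  have hx : ∀ w : (ZMod (p ^ 2))ˣ, ∑ k, X.t k ^ (w : ZMod (p ^ 2)).val * ((X.y k ^ 2 : ℤ) : ℂ) =
      (p : ℂ) * (X.y X.o : ℂ) := by
    intro w
    have h := X.weil w X.o X.o
    rw [X.t_o, one_pow, X.pi_o, X.s_o, mul_one, mul_one] at h
    rw [← h]
    refine Finset.sum_congr rfl ?_
    intro k _
    rw [X.s_symm X.o k, X.s_o]
    push_cast
    ring
  have hξ0 : ξ ≠ 0 := by
    intro h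
    rw [h, zero_pow (pow_ne_zero _ hp.ne_zero)] at hξ
    exact zero_ne_one hξ
  have hξi : (ξ⁻¹) ^ p ^ 2 = 1 := by rw [inv_pow, hξ, inv_one]
  have h1 : ∑ w : (ZMod (p ^ 2))ˣ, ξ⁻¹ ^ (w : ZMod (p ^ 2)).val *
      ∑ k, X.t k ^ (w : ZMod (p ^ 2)).val * ((X.y k ^ 2 : ℤ) : ℂ) =
      ((if ξ⁻¹ = 1 then (p : ℂ) ^ 2 else 0) - (if ξ⁻¹ ^ p = 1 then (p : ℂ) else 0)) *
        ((p : ℂ) * (X.y X.o : ℂ)) := by
    rw [Finset.sum_congr rfl (fun w _ => by rw [hx w]), ← Finset.sum_mul, TWA_T hp _ hξi]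
  have h2 : ∑ w : (ZMod (p ^ 2))ˣ, ξ⁻¹ ^ (w : ZMod (p ^ 2)).val *
      ∑ k, X.t k ^ (w : ZMod (p ^ 2)).val * ((X.y k ^ 2 : ℤ) : ℂ) =
      (p : ℂ) ^ 2 * (Ms X ξ : ℂ) -
        p * ((∑ i, if X.t i ^ p = ξ ^ p then X.y i ^ 2 else 0 : ℤ) : ℂ) := by
    have e1 : ∀ w : (ZMod (p ^ 2))ˣ, ξ⁻¹ ^ (w : ZMod (p ^ 2)).val *
        ∑ k, X.t k ^ (w : ZMod (p ^ 2)).val * ((X.y k ^ 2 : ℤ) : ℂ) =
        ∑ k, (X.t k * ξ⁻¹) ^ (w : ZMod (p ^ 2)).val * ((X.y k ^ 2 : ℤ) : ℂ) := by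
      intro w
      rw [Finset.mul_sum]
      refine Finset.sum_congr rfl fun k _ => ?_
      rw [mul_pow]
      ring
    rw [Finset.sum_congr rfl (fun w _ => e1 w), Finset.sum_comm]
    have e2 : ∀ k, ∑ w : (ZMod (p ^ 2))ˣ, (X.t k * ξ⁻¹) ^ (w : ZMod (p ^ 2)).val *
        ((X.y k ^ 2 : ℤ) : ℂ) =
        (p : ℂ) ^ 2 * (((if X.t k = ξ then X.y k ^ 2 else 0 : ℤ)) : ℂ) -
          p * (((if X.t k ^ p = ξ ^ p then X.y k ^ 2 else 0 : ℤ)) : ℂ) := by
      intro k
      have h3 : (X.t k * ξ⁻¹) ^ p ^ 2 = 1 := by rw [mul_pow, X.t_pow k, hξi, one_mul]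
      rw [← Finset.sum_mul, TWA_T hp _ h3]
      have i1 : X.t k * ξ⁻¹ = 1 ↔ X.t k = ξ := mul_inv_eq_one₀ hξ0
      have i2 : (X.t k * ξ⁻¹) ^ p = 1 ↔ X.t k ^ p = ξ ^ p := by
        rw [mul_pow, inv_pow]
        exact mul_inv_eq_one₀ (pow_ne_zero _ hξ0)
      by_cases c1 : X.t k = ξ <;> by_cases c2 : X.t k ^ p = ξ ^ p
      · rw [if_pos (i1.2 c1), if_pos (i2.2 c2), if_pos c1, if_pos c2]
        ring
      · rw [if_pos (i1.2 c1), if_neg (fun h => c2 (i2.1 h)), if_pos c1, if_neg c2]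
        push_cast
        ring
      · rw [if_neg (fun h => c1 (i1.1 h)), if_pos (i2.2 c2), if_neg c1, if_pos c2]
        push_cast
        ring
      · rw [if_neg (fun h => c1 (i1.1 h)), if_neg (fun h => c2 (i2.1 h)), if_neg c1, if_neg c2]
        push_cast
        ring
    rw [Finset.sum_congr rfl (fun k _ => e2 k), Finset.sum_sub_distrib, ← Finset.mul_sum,
      ← Finset.mul_sum]
    unfold Ms
    push_cast
    rfl
  have j1 : ξ⁻¹ = 1 ↔ ξ = 1 := inv_eq_one
  have j2 : ξ⁻¹ ^ p = 1 ↔ ξ ^ p = 1 := by rw [inv_pow, inv_eq_one]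
  have h4 : (p : ℂ) ^ 2 * (Ms X ξ : ℂ) -
        p * ((∑ i, if X.t i ^ p = ξ ^ p then X.y i ^ 2 else 0 : ℤ) : ℂ) =
      (((if ξ = 1 then (p : ℤ) ^ 2 else 0) - (if ξ ^ p = 1 then (p : ℤ) else 0) : ℤ) : ℂ) *
        ((p : ℂ) * (X.y X.o : ℂ)) := by
    rw [← h2, h1]
    by_cases c1 : ξ = 1 <;> by_cases c2 : ξ ^ p = 1
    · rw [if_pos (j1.2 c1), if_pos (j2.2 c2), if_pos c1, if_pos c2]
      push_cast
      ring
    · rw [if_pos (j1.2 c1), if_neg (fun h => c2 (j2.1 h)), if_pos c1, if_neg c2]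
      push_cast
      ring
    · rw [if_neg (fun h => c1 (j1.1 h)), if_pos (j2.2 c2), if_neg c1, if_pos c2]
      push_cast
      ring
    · rw [if_neg (fun h => c1 (j1.1 h)), if_neg (fun h => c2 (j2.1 h)), if_neg c1, if_neg c2]
      push_cast
      ring
  have h5 : (p : ℤ) ^ 2 * Ms X ξ - p * (∑ i, if X.t i ^ p = ξ ^ p then X.y i ^ 2 else 0) =
      ((if ξ = 1 then (p : ℤ) ^ 2 else 0) - (if ξ ^ p = 1 then (p : ℤ) else 0)) *
        (p * X.y X.o) := by
    exact_mod_cast h4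
  have hpz : (p : ℤ) ≠ 0 := by exact_mod_cast hp.ne_zero
  refine mul_left_cancel₀ hpz ?_
  linear_combination h5

/-- squares of units: `2 * |SQ| = p (p - 1)` -/
theorem TWD_SQ {p : ℕ} (hp : p.Prime) (hodd : Odd p) [NeZero (p ^ 2)] [DecidableEq (ZMod (p ^ 2))ˣ] :
    2 * ((Finset.univ.image fun c : (ZMod (p ^ 2))ˣ => c ^ 2).card) = p * (p - 1) := by
  have hcard : (Finset.univ : Finset (ZMod (p ^ 2))ˣ).card = p * (p - 1) := by
    rw [Finset.card_univ, ZMod.card_units_eq_totient, Nat.totient_prime_pow hp (by norm_num)]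
    simp
  have hsq : ∀ c c0 : (ZMod (p ^ 2))ˣ, c ^ 2 = c0 ^ 2 → c = c0 ∨ c = -c0 := by
    intro c c0 h
    refine TWA_sq hp hodd two_ne_zero c c0 ?_
    rw [← Units.val_pow_eq_pow_val, ← Units.val_pow_eq_pow_val, h]
  have hne : ∀ c : (ZMod (p ^ 2))ˣ, c ≠ -c := by
    intro c h
    have h1 : (c : ZMod (p ^ 2)) = -(c : ZMod (p ^ 2)) := by
      have := congrArg (fun u : (ZMod (p ^ 2))ˣ => (u : ZMod (p ^ 2))) h
      simpa using this
    have h2 : (2 : ZMod (p ^ 2)) * c = 0 := by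
      rw [two_mul]
      nth_rewrite 2 [h1]
      exact add_neg_cancel _
    have h3 : (2 : ZMod (p ^ 2)) = 0 := (c.isUnit.mul_left_eq_zero).1 h2
    have h4 : ((2 : ℕ) : ZMod (p ^ 2)) = 0 := by exact_mod_cast h3
    rw [ZMod.natCast_eq_zero_iff] at h4
    have h5 := Nat.le_of_dvd (by norm_num) h4
    have h6 := hp.two_le
    have h7 : 2 ^ 2 ≤ p ^ 2 := Nat.pow_le_pow_left h6 2
    omega
  apply le_antisymm
  · rw [← hcard]
    refine Finset.mul_card_image_le_card_of_maps_to (f := fun c : (ZMod (p ^ 2))ˣ => c ^ 2) ?_ 2 ?_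
    · intro c _
      exact Finset.mem_image_of_mem _ (Finset.mem_univ _)
    · intro b hb
      rw [Finset.mem_image] at hb
      obtain ⟨c, -, hc⟩ := hb
      refine (le_of_eq (Finset.card_pair (hne c)).symm).trans (Finset.card_le_card ?_)
      intro k hk
      rw [Finset.mem_insert, Finset.mem_singleton] at hk
      rw [Finset.mem_filter]
      refine ⟨Finset.mem_univ _, ?_⟩
      rcases hk with rfl | rfl
      · exact hc
      · rw [neg_sq]
        exact hc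
  · rw [← hcard]
    refine Finset.card_le_mul_card_image _ 2 ?_
    intro b hb
    rw [Finset.mem_image] at hb
    obtain ⟨c0, -, hc0⟩ := hb
    refine le_trans (Finset.card_le_card (t := {c0, -c0}) ?_) Finset.card_le_two
    intro c hc
    rw [Finset.mem_filter] at hc
    rw [Finset.mem_insert, Finset.mem_singleton]
    exact hsq c c0 (hc.2.trans hc0.symm)

open Classical in
/-- TWD -/
theorem hTWD : StTWD := by
  intro I _ _ p X hpx
  have hp := X.prime
  have hF : Fact p.Prime := ⟨hp⟩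
  have hp3 : 3 ≤ p := by
    have h2 := hp.two_le
    rcases Nat.lt_or_ge p 3 with h | h
    · exfalso
      have e : p = 2 := by omega
      have := X.p_odd
      rw [e] at this
      exact absurd this (by decide)
    · exact h
  have hNZ : NeZero (p ^ 2) := ⟨pow_ne_zero _ hp.ne_zero⟩
  have hp3z : (3 : ℤ) ≤ p := by exact_mod_cast hp3
  have hpz : (p : ℤ) ≠ 0 := by linarith
  -- sum of squares
  have hyy : ∑ k, X.y k ^ 2 = (p : ℤ) ^ 2 := by
    have h := X.s_uni X.o X.o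
    rw [if_pos rfl] at h
    have e : ∀ k, X.s X.o k * conj (X.s X.o k) = ((X.y k ^ 2 : ℤ) : ℂ) := by
      intro k
      rw [X.s_symm, X.s_o]
      have : conj ((X.y k : ℤ) : ℂ) = ((X.y k : ℤ) : ℂ) := by
        rw [← Complex.ofReal_intCast, Complex.conj_ofReal]
      rw [this]
      push_cast
      ring
    rw [Finset.sum_congr rfl (fun k _ => e k)] at h
    exact_mod_cast h
  obtain ⟨k0, hk0, hk0t0⟩ := X.ex
  have hk0t : X.t k0 ^ p ≠ 1 := by simpa using hk0t0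
  have hprim : IsPrimitiveRoot (X.t k0) (p ^ 2) := by
    have h1 : X.t k0 ^ p ^ (1 + 1) = 1 := X.t_pow k0
    have h2 := orderOf_eq_prime_pow (p := p) (n := 1) (by rw [pow_one]; exact hk0t) h1
    have h3 : orderOf (X.t k0) = p ^ 2 := h2
    rw [← h3]
    exact IsPrimitiveRoot.orderOf _
  have hz : X.t k0 ^ p ^ 2 = 1 := X.t_pow k0
  set ζ : ℂ := X.t k0 with hζ
  have hpdu : ∀ v : (ZMod (p ^ 2))ˣ, ¬ p ∣ (v : ZMod (p ^ 2)).val := by
    intro v hd
    have hc := ZMod.val_coe_unit_coprime v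
    have := Nat.dvd_gcd hd (dvd_pow_self p two_ne_zero)
    rw [Nat.Coprime] at hc
    rw [hc] at this
    exact hp.one_lt.ne' (Nat.dvd_one.1 this)
  have hne1 : ∀ v : (ZMod (p ^ 2))ˣ, (ζ ^ (v : ZMod (p ^ 2)).val) ^ p ≠ 1 := by
    intro v h
    rw [← pow_mul] at h
    have h1 := (dvd_of_eq (sq p).symm).trans ((hprim.pow_eq_one_iff_dvd _).1 h)
    exact hpdu v (Nat.dvd_of_mul_dvd_mul_right hp.pos h1)
  have hinj : ∀ v w : (ZMod (p ^ 2))ˣ, ζ ^ (v : ZMod (p ^ 2)).val = ζ ^ (w : ZMod (p ^ 2)).val →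
      v = w := by
    intro v w h
    have h3 := hprim.pow_inj (ZMod.val_lt _) (ZMod.val_lt _) h
    exact Units.ext (ZMod.val_injective _ h3)
  have hexv : ∀ k, X.t k ^ p ≠ 1 → ∃ v : (ZMod (p ^ 2))ˣ, X.t k = ζ ^ (v : ZMod (p ^ 2)).val := by
    intro k hk
    obtain ⟨i, hi, hik⟩ := hprim.eq_pow_of_pow_eq_one (X.t_pow k)
    have hpi : ¬ p ∣ i := by
      rintro ⟨j, rfl⟩
      apply hk
      rw [← hik, ← pow_mul]
      have : p * j * p = p ^ 2 * j := by ring
      rw [this, pow_mul, hz, one_pow]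
    have hc : Nat.Coprime i (p ^ 2) :=
      Nat.Coprime.pow_right 2 ((Nat.Prime.coprime_iff_not_dvd hp).2 hpi).symm
    refine ⟨ZMod.unitOfCoprime i hc, ?_⟩
    rw [ZMod.coe_unitOfCoprime, ZMod.val_natCast_of_lt hi, hik]
  -- the function `f`
  set f : (ZMod (p ^ 2))ˣ → ℤ := fun v => Ms X (ζ ^ (v : ZMod (p ^ 2)).val) with hf
  have hf0 : ∀ v, 0 ≤ f v := fun v => Ms_nonneg X _
  have hfinv : ∀ v c : (ZMod (p ^ 2))ˣ, f (v * c ^ 2) = f v := by
    intro v c
    have h1 := Ms_inv X (ζ ^ (v : ZMod (p ^ 2)).val) (by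
      rw [← pow_mul, mul_comm, pow_mul, hz, one_pow]) c
    rw [TWD_pow ζ hz] at h1
    show Ms X (ζ ^ ((v * c ^ 2 : (ZMod (p ^ 2))ˣ) : ZMod (p ^ 2)).val) = _
    rw [Units.val_mul, Units.val_pow_eq_pow_val]
    exact h1
  have hone : ζ ^ ((1 : (ZMod (p ^ 2))ˣ) : ZMod (p ^ 2)).val = ζ := by
    have hp1 : 1 < p ^ 2 := Nat.one_lt_pow two_ne_zero hp.one_lt
    have : Fact (1 < p ^ 2) := ⟨hp1⟩
    rw [Units.val_one, ZMod.val_one, pow_one]
  have hf1 : 1 ≤ f 1 := by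
    have h1 : f 1 = Ms X ζ := by
      show Ms X (ζ ^ ((1 : (ZMod (p ^ 2))ˣ) : ZMod (p ^ 2)).val) = _
      rw [hone]
    have h2 := Ms_ge X k0
    have h3 := sq_pos_of_ne_zero hk0
    rw [h1]
    rw [← hζ] at h2
    linarith
  set q : ℤ := ∑ i, if X.t i ^ p = 1 then X.y i ^ 2 else 0 with hq
  have hnq : ∑ k, (if X.t k ^ p = 1 then 0 else X.y k ^ 2) = (p : ℤ) ^ 2 - q := by
    rw [← hyy, hq, eq_sub_iff_add_eq, ← Finset.sum_add_distrib]
    refine Finset.sum_congr rfl fun k _ => ?_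
    split_ifs <;> ring
  have hfs : ∑ v, f v = (p : ℤ) ^ 2 - q := by
    rw [← hnq]
    have e : ∀ v, f v = ∑ k, if X.t k = ζ ^ (v : ZMod (p ^ 2)).val then X.y k ^ 2 else 0 :=
      fun v => rfl
    rw [Finset.sum_congr rfl (fun v _ => e v), Finset.sum_comm]
    refine Finset.sum_congr rfl fun k _ => ?_
    by_cases hk : X.t k ^ p = 1
    · rw [if_pos hk]
      refine Finset.sum_eq_zero fun v _ => ?_
      rw [if_neg]
      intro h
      apply hne1 v
      rw [← h, hk]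
    · rw [if_neg hk]
      obtain ⟨v0, hv0⟩ := hexv k hk
      rw [Finset.sum_eq_single v0]
      · rw [if_pos hv0]
      · intro v _ hv
        rw [if_neg]
        intro h
        exact hv (hinj v v0 (h.symm.trans hv0))
      · intro h
        exact absurd (Finset.mem_univ _) h
  -- the masses
  have hrel1 : (p : ℤ) * Ms X 1 - q = X.y X.o * ((p : ℤ) ^ 2 - p) := by
    have h := Ms_rel X 1 (one_pow _)
    rw [one_pow, if_pos rfl, if_pos rfl] at h
    exact h
  have hrel2 : ∀ η : ℂ, η ^ p = 1 → η ≠ 1 → (p : ℤ) * Ms X η - q = X.y X.o * (-p) := by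
    intro η h1 h2
    have h := Ms_rel X η (by rw [sq, pow_mul, h1, one_pow])
    rw [h1, if_neg h2, if_pos rfl] at h
    rw [h]
    ring
  obtain ⟨r, hr⟩ : ∃ r : ℤ, q = p * r := ⟨Ms X 1 - X.y X.o * (p - 1), by linear_combination -hrel1⟩
  have hM1 : Ms X 1 = r + (p - 1) * X.y X.o := by
    refine mul_left_cancel₀ hpz ?_
    rw [hr] at hrel1
    linear_combination hrel1
  have hMη : ∀ η : ℂ, η ^ p = 1 → η ≠ 1 → Ms X η = r - X.y X.o := by
    intro η h1 h2
    refine mul_left_cancel₀ hpz ?_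
    have h3 := hrel2 η h1 h2
    rw [hr] at h3
    linear_combination h3
  have hM1pos : 1 ≤ Ms X 1 := by
    by_contra hcon
    have h0 : Ms X 1 = 0 := by
      have := Ms_nonneg X 1
      omega
    have h2 : ∑ i, X.y i * (X.kap i : ℤ) = 0 := by
      refine Finset.sum_eq_zero ?_
      intro i _
      by_cases h3 : X.kap i = 0
      · rw [h3]
        simp
      · have h4 := X.kap_t i h3
        have h5 := Ms_ge X i
        rw [h4, h0] at h5
        have h6 : X.y i ^ 2 = 0 := le_antisymm h5 (sq_nonneg _)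
        rw [pow_eq_zero_iff two_ne_zero] at h6
        rw [h6, zero_mul]
    rw [X.kap_y] at h2
    exact hpz h2
  have hM1q : Ms X 1 ≤ q := by
    unfold Ms
    rw [hq]
    refine Finset.sum_le_sum ?_
    intro k _
    by_cases h1 : X.t k = 1
    · have h2 : X.t k ^ p = 1 := by rw [h1, one_pow]
      rw [if_pos h1, if_pos h2]
    · rw [if_neg h1]
      split_ifs
      · exact sq_nonneg _
      · exact le_rfl
  have hr1 : 1 ≤ r := by
    by_contra h
    have h1 : r ≤ 0 := by omega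
    have h2 : (p : ℤ) * r ≤ 0 := mul_nonpos_of_nonneg_of_nonpos (by linarith) h1
    linarith
  -- squares
  set SQ : Finset (ZMod (p ^ 2))ˣ := Finset.univ.image fun c : (ZMod (p ^ 2))ˣ => c ^ 2 with hSQ
  have hN := TWD_SQ hp X.p_odd
  have hNz : 2 * (SQ.card : ℤ) = (p : ℤ) ^ 2 - p := by
    have h1 : p * (p - 1) + p = p ^ 2 := by
      obtain ⟨r, rfl⟩ : ∃ r, p = r + 1 := ⟨p - 1, by omega⟩
      simp only [Nat.add_sub_cancel]
      ring
    have h2 : 2 * SQ.card + p = p ^ 2 := (congrArg (fun n => n + p) hN).trans h1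
    have h3 : ((2 * SQ.card + p : ℕ) : ℤ) = ((p ^ 2 : ℕ) : ℤ) := by rw [h2]
    push_cast at h3
    linarith
  have hmem : ∀ v, v ∈ SQ ↔ ∃ c : (ZMod (p ^ 2))ˣ, c ^ 2 = v := by
    intro v
    rw [hSQ, Finset.mem_image]
    exact ⟨fun ⟨c, _, h⟩ => ⟨c, h⟩, fun ⟨c, h⟩ => ⟨c, Finset.mem_univ _, h⟩⟩
  have hfSQ : ∀ v ∈ SQ, f v = f 1 := by
    intro v hv
    obtain ⟨c, rfl⟩ := (hmem v).1 hv
    have := hfinv 1 c
    rw [one_mul] at this
    exact this
  have hsumSQ : ∑ v ∈ SQ, f v = SQ.card * f 1 := by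
    rw [Finset.sum_congr rfl hfSQ, Finset.sum_const, nsmul_eq_mul]
  have hcmp : ∑ v ∈ SQ, f v + ∑ v ∈ SQᶜ, f v = ∑ v, f v := Finset.sum_add_sum_compl SQ f
  have hcns : ∀ v1, v1 ∉ SQ → (SQ.card : ℤ) * f v1 ≤ ∑ v ∈ SQᶜ, f v := by
    intro v1 hv1
    have h1 : ∑ v ∈ SQ.image (fun v => v1 * v), f v = SQ.card * f v1 := by
      rw [Finset.sum_image (fun a _ b _ h => mul_left_cancel h)]
      have h2 : ∀ v ∈ SQ, f (v1 * v) = f v1 := by
        intro v hv
        obtain ⟨c, rfl⟩ := (hmem v).1 hv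
        exact hfinv v1 c
      rw [Finset.sum_congr rfl h2, Finset.sum_const, nsmul_eq_mul]
    rw [← h1]
    refine Finset.sum_le_sum_of_subset_of_nonneg ?_ (fun v _ _ => hf0 v)
    intro v hv
    rw [Finset.mem_image] at hv
    obtain ⟨w, hw, rfl⟩ := hv
    rw [Finset.mem_compl]
    intro h
    obtain ⟨c, hc⟩ := (hmem w).1 hw
    obtain ⟨d, hd⟩ := (hmem _).1 h
    apply hv1
    rw [hmem]
    refine ⟨d * c⁻¹, ?_⟩
    rw [mul_pow, hd, inv_pow, hc, mul_inv_cancel_right]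
  have hSQc0 : 0 ≤ ∑ v ∈ SQᶜ, f v := Finset.sum_nonneg fun v _ => hf0 v
  have hNpos : 0 < (SQ.card : ℤ) := by
    have h1 : (0 : ℤ) < (p : ℤ) ^ 2 - p := by nlinarith
    linarith
  have htot : (SQ.card : ℤ) * f 1 + ∑ v ∈ SQᶜ, f v = (p : ℤ) ^ 2 - p * r := by
    rw [← hsumSQ, hcmp, hfs, hr]
  have hpr : (p : ℤ) ≤ p * r := by nlinarith
  have hf12 : f 1 ≤ 2 := by
    by_contra h
    have h1 : 3 ≤ f 1 := by omega
    have h2 : (SQ.card : ℤ) * 3 ≤ SQ.card * f 1 := mul_le_mul_of_nonneg_left h1 hNpos.le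
    linarith
  have hfv1 : ∀ v1, v1 ∉ SQ → f 1 + f v1 ≤ 2 := by
    intro v1 hv1
    by_contra h
    have h1 : 3 ≤ f 1 + f v1 := by omega
    have h2 : (SQ.card : ℤ) * 3 ≤ SQ.card * (f 1 + f v1) := mul_le_mul_of_nonneg_left h1 hNpos.le
    have h3 := hcns v1 hv1
    rw [mul_add] at h2
    linarith
  have hfle : ∀ v, f v ≤ 2 := by
    intro v
    by_cases hv : v ∈ SQ
    · rw [hfSQ v hv]
      exact hf12
    · have := hfv1 v hv
      linarith
  have hyk : ∀ k, X.y k ≠ 0 → X.t k ^ p ≠ 1 → X.y k ^ 2 = 1 := by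
    intro k hk ht
    obtain ⟨v, hv⟩ := hexv k ht
    have h1 := Ms_ge X k
    rw [hv] at h1
    have h2 : X.y k ^ 2 ≤ 2 := h1.trans (hfle v)
    have h3 : X.y k ≤ 1 := by nlinarith
    have h4 : -1 ≤ X.y k := by nlinarith
    have h5 : X.y k = 1 ∨ X.y k = -1 := by omega
    rcases h5 with h5 | h5
    · rw [h5]
      norm_num
    · rw [h5]
      norm_num
  rcases (by omega : r = 1 ∨ 2 ≤ r) with hr1' | hr2
  · -- the first alternative
    left
    have hηp : (ζ ^ p) ^ p = 1 := by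
      rw [← pow_mul, ← sq]
      exact hz
    have h1 := hMη (ζ ^ p) hηp hk0t
    have h2 := Ms_nonneg X (ζ ^ p)
    have hx1 : X.y X.o ≤ 1 := by linarith
    have hx0 : 0 ≤ X.y X.o := by
      by_contra h
      have h2 : X.y X.o ≤ -1 := by omega
      have h3 : ((p : ℤ) - 1) * X.y X.o ≤ (p - 1) * (-1) :=
        mul_le_mul_of_nonneg_left h2 (by linarith)
      linarith
    have hxne : X.y X.o ≠ 0 := by
      intro h0
      apply hpx
      rw [h0]
      exact dvd_zero _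
    have hx11 : X.y X.o = 1 := by omega
    refine ⟨hx11, ?_, ?_, ?_⟩
    · have h3 : Ms X 1 = p := by
        rw [hM1, hx11, hr1']
        ring
      exact h3
    · intro k hk ht
      by_contra hne
      have h3 := Ms_ge X k
      rw [hMη _ ht hne, hx11, hr1'] at h3
      have := sq_pos_of_ne_zero hk
      linarith
    · have h3 : ∑ k, (if X.t k ^ p = 1 then 0 else X.y k ^ 2) ≤
          ((Finset.univ.filter fun k => X.y k ≠ 0 ∧ X.t k ≠ 1).card : ℤ) := by
        rw [Finset.card_filter, Nat.cast_sum]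
        refine Finset.sum_le_sum fun k _ => ?_
        by_cases c1 : X.t k ^ p = 1
        · rw [if_pos c1]
          positivity
        · rw [if_neg c1]
          by_cases c2 : X.y k = 0
          · rw [c2]
            have : ((0 : ℤ)) ^ 2 = 0 := by norm_num
            rw [this]
            positivity
          · rw [hyk k c2 c1, if_pos ⟨c2, fun h => c1 (by rw [h, one_pow])⟩]
            norm_num
      rw [hnq, hr, hr1', mul_one] at h3
      have h4 : ((p ^ 2 : ℕ) : ℤ) ≤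
          (((Finset.univ.filter fun k => X.y k ≠ 0 ∧ X.t k ≠ 1).card + p : ℕ) : ℤ) := by
        push_cast
        linarith
      exact_mod_cast h4
  · -- the second alternative
    right
    have hpr2 : (p : ℤ) * 2 ≤ p * r := mul_le_mul_of_nonneg_left hr2 (by linarith)
    have hf11 : f 1 = 1 := by
      by_contra h
      have h1 : 2 ≤ f 1 := by omega
      have h2 : (SQ.card : ℤ) * 2 ≤ SQ.card * f 1 := mul_le_mul_of_nonneg_left h1 hNpos.le
      linarith
    have hfns : ∀ v, v ∉ SQ → f v = 0 := by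
      intro v hv
      by_contra h
      have h0 := hf0 v
      have h1 : 1 ≤ f v := by omega
      have h2 : (SQ.card : ℤ) * 1 ≤ SQ.card * f v := mul_le_mul_of_nonneg_left h1 hNpos.le
      have h3 := hcns v hv
      rw [hf11] at htot
      linarith
    have hz0 : ∑ v ∈ SQᶜ, f v = 0 := by
      refine Finset.sum_eq_zero fun v hv => ?_
      rw [Finset.mem_compl] at hv
      exact hfns v hv
    rw [hf11, hz0] at htot
    have hrr : 2 * r = p + 1 := by
      refine mul_left_cancel₀ hpz ?_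
      linear_combination (2 : ℤ) * htot - hNz
    have huni : ∀ j k, X.y j ≠ 0 → X.t j ^ p ≠ 1 → X.y k ≠ 0 → X.t k = X.t j → j = k := by
      intro j k hj hjt hk hkt
      by_contra hne
      have h1 := Ms_ge2 X j k hne hkt
      obtain ⟨v, hv⟩ := hexv j hjt
      have h2 : Ms X (X.t j) ≤ 1 := by
        rw [hv]
        show f v ≤ 1
        by_cases hvs : v ∈ SQ
        · rw [hfSQ v hvs, hf11]
        · rw [hfns v hvs]
          norm_num
      have h3 := sq_pos_of_ne_zero hj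
      have h4 := sq_pos_of_ne_zero hk
      linarith
    have hvSQ : ∀ k, X.y k ≠ 0 → X.t k ^ p ≠ 1 → ∃ c : (ZMod (p ^ 2))ˣ,
        X.t k = ζ ^ ((c : ZMod (p ^ 2)) ^ 2).val := by
      intro k hk ht
      obtain ⟨v, hv⟩ := hexv k ht
      have h1 := Ms_ge X k
      rw [hv] at h1
      have h2 := sq_pos_of_ne_zero hk
      have h3 : v ∈ SQ := by
        by_contra h
        have h4 : f v = 0 := hfns v h
        have h5 : X.y k ^ 2 ≤ f v := h1
        linarith
      obtain ⟨c, hc⟩ := (hmem v).1 h3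
      refine ⟨c, ?_⟩
      rw [hv, ← hc, Units.val_pow_eq_pow_val]
    refine ⟨hyk, ?_, huni, ?_⟩
    · intro j k hj hjt hk hkt
      obtain ⟨c, hc⟩ := hvSQ j hj hjt
      obtain ⟨d, hd⟩ := hvSQ k hk hkt
      have h1 : X.t (X.pi (d * c⁻¹) j) = X.t k := by
        rw [X.pi_t, hc, hd, TWD_pow ζ hz]
        congr 2
        rw [Units.val_mul, mul_pow, mul_left_comm, ← mul_pow (c : ZMod (p ^ 2)), Units.mul_inv,
          one_pow, mul_one]
      refine ⟨d * c⁻¹, ?_⟩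
      have h2 := huni k (X.pi (d * c⁻¹) j) hk hkt (by rw [X.pi_y]; exact hj) h1
      exact h2.symm
    · refine ⟨r - X.y X.o, hMη, ?_, ?_⟩
      · have h3 : Ms X 1 = r - X.y X.o + p * X.y X.o := by
          rw [hM1]
          ring
        exact h3
      · linear_combination hrr

end Pool.Agent.Helper25.PQ0
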